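import Mathlib
import Pool.Agent.TH888.R.Base
import Pool.Agent.H447R2.ML.Spec

set_option autoImplicit false

/-!
# The generalized Lenstra-Pomerance-Wagstaff law: error term and sets of exponents, all pairs

For integers `a > 1`, `-a < b < a`, a real `β > 0` and a prime `p` let `W a b β p` be the `p`-rough
part (the product, with multiplicity, of the prime factors larger than `p`) of
`⌊β a ^ p - b ^ p / (a - b)⌋`.  At the amplitude `β = 1 / (a - b)` this is `(a ^ p - b ^ p) / (a - b)`
itself, for `a`, `b` coprime and `p` prime to `a - b`.  The pair `(a, b)` is fixed.  For a set `S`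
let `M a b S β n` be the number of primes `p ≤ n` in `S` with `W a b β p` prime, and let `V S n` be
the sum of `log p / p` over the primes `p ≤ n` in `S`.  We prove that for almost every `β > 0` and
all pairs the number of primes `p ≤ n` with `W a b β p` prime is
`(e ^ γ / log a) log n + O((log n) ^ (1/2) (log log n) ^ (5/2))`, and that for every set `S`, almost
every `β > 0` and all pairs there are infinitely many such primes `p` in `S` if and only if `V S n`
is unbounded, and that in this case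
`M a b S β n = (e ^ γ / log a) V S n + O((V L) ^ (1/2) (log (V L)) ^ 2)` with `V = V S n` and
`L = log log n`.
-/

namespace Pool.Agent.Results.MP_de9007_nt.PairsErrorTerm

open Filter Topology MeasureTheory Asymptotics

/-- The product, with multiplicity, of the prime factors of `m` that are larger than `p`. -/
def roughPart (p m : ℕ) : ℕ := (m.primeFactorsList.filter (fun r => p < r)).prod

/-- The `p`-rough part of `⌊β a ^ p - b ^ p / (a - b)⌋`. -/
noncomputable def W (a b : ℤ) (β : ℝ) (p : ℕ) : ℕ :=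
  roughPart p ⌊β * (a : ℝ) ^ p - (b : ℝ) ^ p / ((a : ℝ) - b)⌋₊

open Classical in
/-- The number of primes `p ≤ n` in the set `S` for which `W a b β p` is prime. -/
noncomputable def M (a b : ℤ) (S : Set ℕ) (β : ℝ) (n : ℕ) : ℕ :=
  ((Finset.range (n + 1)).filter (fun p => p.Prime ∧ p ∈ S ∧ (W a b β p).Prime)).card

open Classical in
/-- The sum of `log p / p` over the primes `p ≤ n` in the set `S`. -/
noncomputable def V (S : Set ℕ) (n : ℕ) : ℝ :=
  ∑ p ∈ (Finset.range (n + 1)).filter (fun p => p.Prime ∧ p ∈ S), Real.log p / p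

lemma V_eq (S : Set ℕ) (n : ℕ) : V S n = Pool.Agent.TH888.R.VS S n := by
  classical
  unfold V Pool.Agent.TH888.R.VS
  rw [Finset.sum_filter]
  refine Finset.sum_congr rfl fun p _ => ?_
  by_cases h : p.Prime ∧ p ∈ S
  · rw [if_pos h, if_pos ⟨h.2, h.1⟩]
    rfl
  · rw [if_neg h, if_neg fun h1 => h ⟨h1.2, h1.1⟩]

/-- The special amplitude. -/
lemma special {a b : ℤ} (hab : IsCoprime a b) (h1 : -a < b) (h2 : b < a) {p : ℕ} (hp : p.Prime)
    (hpd : ¬ (p : ℤ) ∣ a - b) : (W a b (1 / ((a : ℝ) - b)) p : ℤ) * (a - b) = a ^ p - b ^ p := by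
  have h := Pool.Agent.H447R2.ML.rough_quot hab h1 h2 hp hpd rfl
  have hgeom : (∑ i ∈ Finset.range p, a ^ i * b ^ (p - 1 - i)) * (a - b) = a ^ p - b ^ p :=
    (Commute.all a b).geom_sum₂_mul p
  rw [← h] at hgeom
  exact hgeom

lemma M_eq (a b : ℤ) (S : Set ℕ) (β : ℝ) (n : ℕ) : M a b S β n = Pool.Agent.TH888.R.cS S
    (fun p => ⌊β * (a : ℝ) ^ p - (b : ℝ) ^ p / ((a : ℝ) - b)⌋₊) n := by
  classical
  unfold M Pool.Agent.TH888.R.cS
  rfl

/-- The library form of the statement. -/
lemma pt (S : Set ℕ) : ∀ᵐ β : ℝ, 0 < β → ∀ a b : ℤ, 1 < a → -a < b → b < a →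
    Pool.Agent.TH888.R.Pt (fun p => ⌊β * (a : ℝ) ^ p - (b : ℝ) ^ p / ((a : ℝ) - b)⌋₊)
      (Real.exp Real.eulerMascheroniConstant / Real.log a) S := by
  have h : ∀ a b : ℤ, ∀ᵐ β : ℝ, (1 < a ∧ -a < b ∧ b < a) → 0 < β → Pool.Agent.TH888.R.Pt
      (fun p => ⌊β * (a : ℝ) ^ p - (b : ℝ) ^ p / ((a : ℝ) - b)⌋₊)
      (Real.exp Real.eulerMascheroniConstant / Real.log a) S := by
    intro a b
    by_cases hc : 1 < a ∧ -a < b ∧ b < a
    · obtain ⟨ha, h1, h2⟩ := hc
      obtain ⟨A, hA⟩ := Int.eq_ofNat_of_zero_le (show 0 ≤ a by omega)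
      have hA2 : 2 ≤ A := by omega
      have hA2' : (2 : ℝ) ≤ A := by exact_mod_cast hA2
      have hbr : |(b : ℝ)| < (A : ℝ) := by
        have h3 : |b| < a := abs_lt.2 ⟨h1, h2⟩
        rw [hA] at h3
        exact_mod_cast h3
      have hab : (0 : ℝ) < (A : ℝ) - b := by
        have := le_abs_self (b : ℝ)
        linarith
      have hg : ∀ p : ℕ, |(fun p : ℕ => -((b : ℝ) ^ p / ((A : ℝ) - b))) p| ≤
          (1 / ((A : ℝ) - b)) * |(b : ℝ)| ^ p := by
        intro p
        simp only
        rw [abs_neg, abs_div, abs_pow, abs_of_pos hab]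
        exact le_of_eq (by ring)
      have key := Pool.Agent.TH888.R.pt_floor (α := (A : ℝ)) (by linarith) (abs_nonneg (b : ℝ)) hbr hg
        (Pool.Agent.TH888.R.near_base hA2 (abs_nonneg _) hbr hg) S
      have e : (a : ℝ) = (A : ℝ) := by rw [hA]; simp
      rw [e]
      filter_upwards [key] with β hβ _ h0
      simp only [sub_eq_add_neg] at hβ ⊢
      exact hβ h0
    · exact Eventually.of_forall fun β h1 => absurd h1 hc
  filter_upwards [ae_all_iff.2 fun a => ae_all_iff.2 (h a)] with β hβ h0 a b ha h1 h2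
  exact hβ a b ⟨ha, h1, h2⟩ h0

/-- The numbers `(a ^ p - b ^ p) / (a - b)` are the values at `β = 1 / (a - b)`, and for almost every
`β`, simultaneously for all pairs, the law holds with a square root error term; for every set of
primes the number of prime values is finite or infinite according to the weight of the set, and in
the second case it obeys the corresponding law. -/
theorem result :
    (∀ a b : ℤ, IsCoprime a b → -a < b → b < a → ∀ p : ℕ, p.Prime → ¬ (p : ℤ) ∣ a - b →
      (W a b (1 / ((a : ℝ) - b)) p : ℤ) * (a - b) = a ^ p - b ^ p) ∧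
    (∀ᵐ β : ℝ, 0 < β → ∀ a b : ℤ, 1 < a → -a < b → b < a →
      (fun n : ℕ => (M a b Set.univ β n : ℝ) -
        Real.exp Real.eulerMascheroniConstant / Real.log a * Real.log n) =O[atTop]
      (fun n : ℕ => Real.sqrt (Real.log n) * (Real.log (Real.log n)) ^ ((5 : ℝ) / 2))) ∧
    (∀ S : Set ℕ, Tendsto (V S) atTop atTop →
      ∀ᵐ β : ℝ, 0 < β → ∀ a b : ℤ, 1 < a → -a < b → b < a →
      (fun n : ℕ => (M a b S β n : ℝ) -
        Real.exp Real.eulerMascheroniConstant / Real.log a * V S n) =O[atTop]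
      (fun n : ℕ => Real.sqrt (V S n * Real.log (Real.log n)) *
        (Real.log (V S n * Real.log (Real.log n))) ^ 2)) ∧
    (∀ S : Set ℕ, ∀ᵐ β : ℝ, 0 < β → ∀ a b : ℤ, 1 < a → -a < b → b < a →
      ({p : ℕ | p.Prime ∧ p ∈ S ∧ (W a b β p).Prime}.Infinite ↔ Tendsto (V S) atTop atTop)) := by
  have hV : ∀ S, V S = Pool.Agent.TH888.R.VS S := fun S => funext fun n => V_eq S n
  refine ⟨fun a b hab h1 h2 p hp hpd => special hab h1 h2 hp hpd, ?_, fun S hS => ?_, fun S => ?_⟩
  · filter_upwards [pt Set.univ] with β hβ h0 a b ha h1 h2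
    obtain ⟨B, hB, h⟩ := (hβ h0 a b ha h1 h2).law Pool.Agent.TH888.R.VS_univ_tendsto
    simp only [M_eq]
    exact Pool.Agent.TH888.R.bigO_all hB h
  · rw [hV] at hS ⊢
    filter_upwards [pt S] with β hβ h0 a b ha h1 h2
    obtain ⟨B, hB, h⟩ := (hβ h0 a b ha h1 h2).law hS
    simp only [M_eq]
    exact Pool.Agent.TH888.R.bigO_set hB hS h
  · rw [hV]
    filter_upwards [pt S] with β hβ h0 a b ha h1 h2
    constructor
    · intro hi
      by_contra hn
      exact hi ((hβ h0 a b ha h1 h2).fin hn)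
    · exact (hβ h0 a b ha h1 h2).inf

end Pool.Agent.Results.MP_de9007_nt.PairsErrorTerm
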