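import Mathlib
import Pool.Agent.TH888.C.Val
import Pool.Agent.H447R2.ML.Spec

set_option autoImplicit false

/-!
# The generalized Lenstra-Pomerance-Wagstaff law for real `a`: error term and sets of exponents

For real `a > 1` and `b` with `|b| < a` and a prime `p` let `W a b p` be the `p`-rough part (the
product, with multiplicity, of the prime factors larger than `p`) of
`⌊(a ^ p - b ^ p) / (a - b)⌋`.  For coprime integers `a`, `b` and `p` prime to `a - b` this is the
number `(a ^ p - b ^ p) / (a - b)` itself.  For a set `S` let `M S a b n` be the number of primes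
`p ≤ n` in `S` with `W a b p` prime, and let `V S n` be the sum of `log p / p` over the primes
`p ≤ n` in `S`.  We prove that for every real `b` and almost every real `a > max 1 |b|` the number
of primes `p ≤ n` with `W a b p` prime is
`(e ^ γ / log a) log n + O((log n) ^ (1/2) (log log n) ^ (5/2))`, that for every set `S`, every real
`b` and almost every `a > max 1 |b|` there are infinitely many such primes `p` in `S` if and only if
`V S n` is unbounded, and that in this case
`M S a b n = (e ^ γ / log a) V S n + O((V L) ^ (1/2) (log (V L)) ^ 2)` with `V = V S n` and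
`L = log log n`.
-/

namespace Pool.Agent.Results.MP_de9007_nt.RealPairs

open Filter Topology MeasureTheory Asymptotics

/-- The product, with multiplicity, of the prime factors of `m` that are larger than `p`. -/
def roughPart (p m : ℕ) : ℕ := (m.primeFactorsList.filter (fun r => p < r)).prod

/-- The `p`-rough part of `⌊(a ^ p - b ^ p) / (a - b)⌋`. -/
noncomputable def W (a b : ℝ) (p : ℕ) : ℕ := roughPart p ⌊(a ^ p - b ^ p) / (a - b)⌋₊

open Classical in
/-- The number of primes `p ≤ n` in the set `S` for which `W a b p` is prime. -/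
noncomputable def M (S : Set ℕ) (a b : ℝ) (n : ℕ) : ℕ :=
  ((Finset.range (n + 1)).filter (fun p => p.Prime ∧ p ∈ S ∧ (W a b p).Prime)).card

open Classical in
/-- The sum of `log p / p` over the primes `p ≤ n` in the set `S`. -/
noncomputable def V (S : Set ℕ) (n : ℕ) : ℝ :=
  ∑ p ∈ (Finset.range (n + 1)).filter (fun p => p.Prime ∧ p ∈ S), Real.log p / p

lemma V_eq (S : Set ℕ) (n : ℕ) : V S n = Pool.Agent.TH888.R.VS S n := by
  classical
  unfold V Pool.Agent.TH888.R.VS
  rw [Finset.sum_filter]
  refine Finset.sum_congr rfl fun p _ => ?_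
  by_cases h : p.Prime ∧ p ∈ S
  · rw [if_pos h, if_pos ⟨h.2, h.1⟩]
    rfl
  · rw [if_neg h, if_neg fun h1 => h ⟨h1.2, h1.1⟩]

/-- The integer points. -/
lemma special {a b : ℤ} (hab : IsCoprime a b) (h1 : -a < b) (h2 : b < a) {p : ℕ} (hp : p.Prime)
    (hpd : ¬ (p : ℤ) ∣ a - b) : (W a b p : ℤ) * (a - b) = a ^ p - b ^ p := by
  have hne : (a : ℝ) - b ≠ 0 := by
    have : (b : ℝ) < a := by exact_mod_cast h2
    have h3 : 0 < (a : ℝ) - b := by linarith
    exact h3.ne'
  have h := Pool.Agent.H447R2.ML.rough_quot hab h1 h2 hp hpd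
    (x := ((a : ℝ) ^ p - (b : ℝ) ^ p) / ((a : ℝ) - b)) (by field_simp)
  have hgeom : (∑ i ∈ Finset.range p, a ^ i * b ^ (p - 1 - i)) * (a - b) = a ^ p - b ^ p :=
    (Commute.all a b).geom_sum₂_mul p
  rw [← h] at hgeom
  exact hgeom

lemma M_eq (S : Set ℕ) (a b : ℝ) (n : ℕ) :
    M S a b n = Pool.Agent.TH888.R.cS S (fun p => ⌊(a ^ p - b ^ p) / (a - b)⌋₊) n := by
  classical
  unfold M Pool.Agent.TH888.R.cS
  rfl

lemma pt (b : ℝ) (S : Set ℕ) : ∀ᵐ a : ℝ, max 1 |b| < a → Pool.Agent.TH888.R.Pt
    (fun p => ⌊(a ^ p - b ^ p) / (a - b)⌋₊)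
      (Real.exp Real.eulerMascheroniConstant / Real.log a) S := by
  have hne : ∀ x : ℝ, max 1 |b| < x → 0 < x - b := fun x hx => by
    have h2 := le_max_right 1 |b|
    have h3 := le_abs_self b
    linarith
  have h := Pool.Agent.TH888.C.pt_curve b S (A := fun x => 1 / (x - b))
    (ContDiffOn.div contDiffOn_const (contDiffOn_id.sub contDiffOn_const)
      fun x hx => (hne x hx).ne') (fun x hx => by
        have := hne x hx
        positivity)
  filter_upwards [h] with a ha h1
  have h2 := ha h1
  simp only [one_div_mul_eq_div] at h2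
  exact h2

/-- At the coprime integer points the values are the numbers of the question, and for every real
`b` and almost every real `a` the law holds with a square root error term; for every set of primes
the number of prime values is finite or infinite according to the weight of the set, and in the
second case it obeys the corresponding law. -/
theorem result :
    (∀ a b : ℤ, IsCoprime a b → -a < b → b < a → ∀ p : ℕ, p.Prime → ¬ (p : ℤ) ∣ a - b →
      (W a b p : ℤ) * (a - b) = a ^ p - b ^ p) ∧
    (∀ b : ℝ, ∀ᵐ a : ℝ, max 1 |b| < a →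
      (fun n : ℕ => (M Set.univ a b n : ℝ) -
        Real.exp Real.eulerMascheroniConstant / Real.log a * Real.log n) =O[atTop]
      (fun n : ℕ => Real.sqrt (Real.log n) * (Real.log (Real.log n)) ^ ((5 : ℝ) / 2))) ∧
    (∀ b : ℝ, ∀ S : Set ℕ, Tendsto (V S) atTop atTop → ∀ᵐ a : ℝ, max 1 |b| < a →
      (fun n : ℕ => (M S a b n : ℝ) -
        Real.exp Real.eulerMascheroniConstant / Real.log a * V S n) =O[atTop]
      (fun n : ℕ => Real.sqrt (V S n * Real.log (Real.log n)) *
        (Real.log (V S n * Real.log (Real.log n))) ^ 2)) ∧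
    (∀ b : ℝ, ∀ S : Set ℕ, ∀ᵐ a : ℝ, max 1 |b| < a →
      ({p : ℕ | p.Prime ∧ p ∈ S ∧ (W a b p).Prime}.Infinite ↔ Tendsto (V S) atTop atTop)) := by
  have hV : ∀ S, V S = Pool.Agent.TH888.R.VS S := fun S => funext fun n => V_eq S n
  refine ⟨fun a b hab h1 h2 p hp hpd => special hab h1 h2 hp hpd, fun b => ?_, fun b S hS => ?_,
    fun b S => ?_⟩
  · filter_upwards [pt b Set.univ] with a ha h0
    obtain ⟨B, hB, h⟩ := (ha h0).law Pool.Agent.TH888.R.VS_univ_tendsto
    simp only [M_eq]
    exact Pool.Agent.TH888.R.bigO_all hB h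
  · rw [hV] at hS ⊢
    filter_upwards [pt b S] with a ha h0
    obtain ⟨B, hB, h⟩ := (ha h0).law hS
    simp only [M_eq]
    exact Pool.Agent.TH888.R.bigO_set hB hS h
  · rw [hV]
    filter_upwards [pt b S] with a ha h0
    constructor
    · intro hi
      by_contra hn
      exact hi ((ha h0).fin hn)
    · exact (ha h0).inf

end Pool.Agent.Results.MP_de9007_nt.RealPairs
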